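import Pool.Agent.TH338.LG.Chain

/-!
The nesting constant restricted to chains of exponents `n 0 < n 1 < ... < n (k - 1)` with
`n i ≤ n 0 + B i` is zero, for every function `B`.
-/

set_option autoImplicit false

open Filter Topology
open scoped ENNReal NNReal

namespace Pool.Agent.Results.MP_ca68af_nt.BoundedChains

/-- The 3-adic expansion of `x` omits the digit `2`. -/
def OmitsTwo (x : ℤ_[3]) : Prop := ∀ j : ℕ, x.appr (j + 1) / 3 ^ j % 3 ≠ 2

/-- The set of the 3-adic integers `x` for which there are `k` exponents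
`n 0 < n 1 < ... < n (k - 1)`, the `i`-th of them at most `B i` after the first, such that the
3-adic expansion of each `2 ^ n i * x` omits the digit `2`. -/
def Chains (B : ℕ → ℕ) (k : ℕ) : Set ℤ_[3] :=
  {x | ∃ n : ℕ → ℕ, (∀ i, i + 1 < k → n i < n (i + 1)) ∧ (∀ i < k, n i ≤ n 0 + B i) ∧
    ∀ i < k, OmitsTwo ((2 : ℤ_[3]) ^ n i * x)}

/-- **The nesting constant of bounded chains is zero.** Let `B` be any function. The Hausdorff
dimension of `Chains B k` tends to `0` as `k` tends to infinity. In particular, for `ε > 0` there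
is a `k` such that for all exponents `n 0 < ... < n (k - 1)` with `n i ≤ n 0 + B i` the set of the
`x` for which all `2 ^ n i * x` omit the digit `2` has dimension at most `ε`; and for each infinite
set of exponents the dimension of the set of the `x` which satisfy the first `k` constraints tends
to `0`. -/
theorem result :
    (∀ B : ℕ → ℕ, Tendsto (fun k : ℕ => dimH (Chains B k)) atTop (𝓝 0)) ∧
    (∀ B : ℕ → ℕ, ∀ ε : ℝ≥0, 0 < ε → ∃ k : ℕ, ∀ n : ℕ → ℕ, (∀ i, i + 1 < k → n i < n (i + 1)) →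
      (∀ i < k, n i ≤ n 0 + B i) →
      dimH {x : ℤ_[3] | ∀ i < k, OmitsTwo ((2 : ℤ_[3]) ^ n i * x)} ≤ ε) ∧
    (∀ n : ℕ → ℕ, StrictMono n →
      Tendsto (fun k : ℕ => dimH {x : ℤ_[3] | ∀ i < k, OmitsTwo ((2 : ℤ_[3]) ^ n i * x)})
        atTop (𝓝 0)) := by
  have hOm : ∀ x : ℤ_[3], OmitsTwo x ↔ Pool.Agent.TH338.LG.Om x := by
    intro x
    refine forall_congr' fun j => ?_
    have h1 : x.appr (j + 1) / 3 ^ j < 3 := by
      rw [Nat.div_lt_iff_lt_mul (by positivity)]
      have := x.appr_lt (j + 1)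
      rw [pow_succ] at this
      omega
    rw [Nat.mod_eq_of_lt h1]
  have hA : ∀ B : ℕ → ℕ, Tendsto (fun k : ℕ => dimH (Chains B k)) atTop (𝓝 0) := by
    intro B
    have h := Pool.Agent.TH338.LG.chain_dim B
    unfold Chains
    simpa only [hOm] using h
  refine ⟨hA, ?_, ?_⟩
  · intro B ε hε
    have h1 := (ENNReal.tendsto_nhds_zero.1 (hA B)) ε (by exact_mod_cast hε)
    obtain ⟨k, hk⟩ := h1.exists
    refine ⟨k, fun n hn1 hn2 => ?_⟩
    have hsub : {x : ℤ_[3] | ∀ i < k, OmitsTwo ((2 : ℤ_[3]) ^ n i * x)} ⊆ Chains B k :=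
      fun x hx => ⟨n, hn1, hn2, hx⟩
    exact (dimH_mono hsub).trans hk
  · intro n hn
    refine tendsto_of_tendsto_of_tendsto_of_le_of_le tendsto_const_nhds (hA (fun i => n i))
      (fun k => zero_le) fun k => ?_
    refine dimH_mono fun x hx => ⟨n, fun i _ => hn (Nat.lt_succ_self i), fun i _ => ?_, hx⟩
    exact Nat.le_add_left _ _

end Pool.Agent.Results.MP_ca68af_nt.BoundedChains
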